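import Mathlib

/-!
# Block IM-K (helper72, MP_1994dd_an)

`K(x,y) = ∑_{(j,k) ≠ (0,0)} a_{jk} x^j y^k` with `a_{jk} = α^j / (j! (k+1)! (j + c k))` is entire and
`y · DK(x,y)(x, c y) = exp(α x) (exp y - 1) - y`.
-/

namespace Pool.Agent.Helper33.IM

open Filter Topology

/-- the coefficient (for `(0,0)` it is `0` by division by zero) -/
noncomputable def ka (α c : ℝ) (n : ℕ × ℕ) : ℂ :=
  (α : ℂ) ^ n.1 / ((n.1.factorial : ℂ) * ((n.2 + 1).factorial : ℂ) *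
    ((n.1 : ℂ) + (c : ℂ) * (n.2 : ℂ)))

/-- the general term -/
noncomputable def kt (α c : ℝ) (n : ℕ × ℕ) (p : ℂ × ℂ) : ℂ := ka α c n * (p.1 ^ n.1 * p.2 ^ n.2)

/-- its derivative -/
noncomputable def kt' (α c : ℝ) (n : ℕ × ℕ) (p : ℂ × ℂ) : ℂ × ℂ →L[ℂ] ℂ :=
  ka α c n • (p.1 ^ n.1 • ((n.2 : ℂ) * p.2 ^ (n.2 - 1)) • ContinuousLinearMap.snd ℂ ℂ ℂ +
    p.2 ^ n.2 • ((n.1 : ℂ) * p.1 ^ (n.1 - 1)) • ContinuousLinearMap.fst ℂ ℂ ℂ)

theorem kt_hasFDerivAt (α c : ℝ) (n : ℕ × ℕ) (p : ℂ × ℂ) :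
    HasFDerivAt (kt α c n) (kt' α c n p) p := by
  have h1 : HasFDerivAt (fun q : ℂ × ℂ => q.1 ^ n.1)
      (((n.1 : ℂ) * p.1 ^ (n.1 - 1)) • ContinuousLinearMap.fst ℂ ℂ ℂ) p := by
    exact (hasDerivAt_pow n.1 p.1).comp_hasFDerivAt p hasFDerivAt_fst
  have h2 : HasFDerivAt (fun q : ℂ × ℂ => q.2 ^ n.2)
      (((n.2 : ℂ) * p.2 ^ (n.2 - 1)) • ContinuousLinearMap.snd ℂ ℂ ℂ) p := by
    exact (hasDerivAt_pow n.2 p.2).comp_hasFDerivAt p hasFDerivAt_snd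
  exact (h1.mul h2).const_mul (ka α c n)

/-- bound `δ (j + k) ≤ ‖j + c k‖` -/
theorem norm_jk {c : ℝ} (_hc : 0 < c) (n : ℕ × ℕ) :
    min 1 c * ((n.1 : ℝ) + n.2) ≤ ‖(n.1 : ℂ) + (c : ℂ) * (n.2 : ℂ)‖ := by
  have h1 : (n.1 : ℂ) + (c : ℂ) * (n.2 : ℂ) = (((n.1 : ℝ) + c * n.2 : ℝ) : ℂ) := by
    push_cast; ring
  rw [h1, Complex.norm_real, Real.norm_eq_abs]
  refine le_trans ?_ (le_abs_self _)
  have h2 : min 1 c * (n.1 : ℝ) ≤ 1 * n.1 :=
    mul_le_mul_of_nonneg_right (min_le_left _ _) (Nat.cast_nonneg _)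
  have h3 : min 1 c * (n.2 : ℝ) ≤ c * n.2 :=
    mul_le_mul_of_nonneg_right (min_le_right _ _) (Nat.cast_nonneg _)
  linarith [mul_add (min 1 c) (n.1 : ℝ) (n.2 : ℝ)]

theorem ka_norm_le {α c : ℝ} (hc : 0 < c) (n : ℕ × ℕ) :
    ‖ka α c n‖ * ((n.1 : ℝ) + n.2) ≤
      (min 1 c)⁻¹ * (|α| ^ n.1 / (n.1.factorial : ℝ) * (1 / (n.2.factorial : ℝ))) := by
  have hδ : 0 < min 1 c := lt_min one_pos hc
  have hf1 : (0 : ℝ) < (n.1.factorial : ℝ) := by exact_mod_cast Nat.factorial_pos _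
  have hf2 : (0 : ℝ) < (n.2.factorial : ℝ) := by exact_mod_cast Nat.factorial_pos _
  have hf3 : (n.2.factorial : ℝ) ≤ ((n.2 + 1).factorial : ℝ) := by
    exact_mod_cast Nat.factorial_le (Nat.le_succ _)
  have hf4 : (0 : ℝ) < ((n.2 + 1).factorial : ℝ) := lt_of_lt_of_le hf2 hf3
  rcases (Nat.eq_zero_or_pos (n.1 + n.2)) with h0 | hpos
  · have h1 : ((n.1 : ℝ) + n.2) = 0 := by exact_mod_cast h0
    rw [h1, mul_zero]
    positivity
  · have hs : (0 : ℝ) < (n.1 : ℝ) + n.2 := by exact_mod_cast hpos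
    have hj := norm_jk hc n
    have hj0 : 0 < ‖(n.1 : ℂ) + (c : ℂ) * (n.2 : ℂ)‖ := lt_of_lt_of_le (mul_pos hδ hs) hj
    unfold ka
    rw [norm_div, norm_mul, norm_mul, norm_pow, Complex.norm_natCast, Complex.norm_natCast,
      Complex.norm_real, Real.norm_eq_abs]
    have e1 : |α| ^ n.1 / ((n.1.factorial : ℝ) * ((n.2 + 1).factorial : ℝ) *
        ‖(n.1 : ℂ) + (c : ℂ) * (n.2 : ℂ)‖) * ((n.1 : ℝ) + n.2) =
        (|α| ^ n.1 / (n.1.factorial : ℝ)) * ((((n.1 : ℝ) + n.2) /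
          ‖(n.1 : ℂ) + (c : ℂ) * (n.2 : ℂ)‖) * (1 / ((n.2 + 1).factorial : ℝ))) := by
      field_simp
    rw [e1]
    have e2 : ((n.1 : ℝ) + n.2) / ‖(n.1 : ℂ) + (c : ℂ) * (n.2 : ℂ)‖ ≤ (min 1 c)⁻¹ := by
      rw [div_le_iff₀ hj0, inv_mul_eq_div, le_div_iff₀ hδ]
      linarith
    have e3 : 1 / ((n.2 + 1).factorial : ℝ) ≤ 1 / (n.2.factorial : ℝ) :=
      one_div_le_one_div_of_le hf2 hf3
    calc (|α| ^ n.1 / (n.1.factorial : ℝ)) * ((((n.1 : ℝ) + n.2) /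
          ‖(n.1 : ℂ) + (c : ℂ) * (n.2 : ℂ)‖) * (1 / ((n.2 + 1).factorial : ℝ)))
        ≤ (|α| ^ n.1 / (n.1.factorial : ℝ)) * ((min 1 c)⁻¹ * (1 / (n.2.factorial : ℝ))) := by
          apply mul_le_mul_of_nonneg_left _ (by positivity)
          exact mul_le_mul e2 e3 (by positivity) (by positivity)
      _ = _ := by ring

theorem kt'_norm_le {α c : ℝ} (hc : 0 < c) (n : ℕ × ℕ) {R : ℝ} (hR : 1 ≤ R) {p : ℂ × ℂ}
    (hp : ‖p‖ ≤ R) :
    ‖kt' α c n p‖ ≤ (min 1 c)⁻¹ * ((|α| * R) ^ n.1 / (n.1.factorial : ℝ) *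
      (R ^ n.2 / (n.2.factorial : ℝ))) := by
  have h1 : ‖p.1‖ ≤ R := (norm_fst_le p).trans hp
  have h2 : ‖p.2‖ ≤ R := (norm_snd_le p).trans hp
  have hR0 : 0 ≤ R := zero_le_one.trans hR
  have b1 : ‖p.1 ^ n.1 • ((n.2 : ℂ) * p.2 ^ (n.2 - 1)) • ContinuousLinearMap.snd ℂ ℂ ℂ‖ ≤
      (n.2 : ℝ) * (R ^ n.1 * R ^ n.2) := by
    rw [norm_smul, norm_smul, norm_pow, norm_mul, norm_pow, Complex.norm_natCast]
    have a1 : ‖p.1‖ ^ n.1 ≤ R ^ n.1 := pow_le_pow_left₀ (norm_nonneg _) h1 _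
    have a2 : ‖p.2‖ ^ (n.2 - 1) ≤ R ^ n.2 :=
      (pow_le_pow_left₀ (norm_nonneg _) h2 _).trans (pow_le_pow_right₀ hR (Nat.sub_le _ _))
    have a3 : ‖ContinuousLinearMap.snd ℂ ℂ ℂ‖ ≤ 1 := ContinuousLinearMap.norm_snd_le ℂ ℂ ℂ
    calc ‖p.1‖ ^ n.1 * ((n.2 : ℝ) * ‖p.2‖ ^ (n.2 - 1) * ‖ContinuousLinearMap.snd ℂ ℂ ℂ‖)
        ≤ R ^ n.1 * ((n.2 : ℝ) * R ^ n.2 * 1) := by
          gcongr
      _ = _ := by ring
  have b2 : ‖p.2 ^ n.2 • ((n.1 : ℂ) * p.1 ^ (n.1 - 1)) • ContinuousLinearMap.fst ℂ ℂ ℂ‖ ≤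
      (n.1 : ℝ) * (R ^ n.1 * R ^ n.2) := by
    rw [norm_smul, norm_smul, norm_pow, norm_mul, norm_pow, Complex.norm_natCast]
    have a1 : ‖p.2‖ ^ n.2 ≤ R ^ n.2 := pow_le_pow_left₀ (norm_nonneg _) h2 _
    have a2 : ‖p.1‖ ^ (n.1 - 1) ≤ R ^ n.1 :=
      (pow_le_pow_left₀ (norm_nonneg _) h1 _).trans (pow_le_pow_right₀ hR (Nat.sub_le _ _))
    have a3 : ‖ContinuousLinearMap.fst ℂ ℂ ℂ‖ ≤ 1 := ContinuousLinearMap.norm_fst_le ℂ ℂ ℂ
    calc ‖p.2‖ ^ n.2 * ((n.1 : ℝ) * ‖p.1‖ ^ (n.1 - 1) * ‖ContinuousLinearMap.fst ℂ ℂ ℂ‖)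
        ≤ R ^ n.2 * ((n.1 : ℝ) * R ^ n.1 * 1) := by
          gcongr
      _ = _ := by ring
  unfold kt'
  rw [norm_smul]
  calc ‖ka α c n‖ * _ ≤ ‖ka α c n‖ * ((n.2 : ℝ) * (R ^ n.1 * R ^ n.2) +
        (n.1 : ℝ) * (R ^ n.1 * R ^ n.2)) := by
        apply mul_le_mul_of_nonneg_left _ (norm_nonneg _)
        exact (norm_add_le _ _).trans (add_le_add b1 b2)
    _ = (‖ka α c n‖ * ((n.1 : ℝ) + n.2)) * (R ^ n.1 * R ^ n.2) := by ring
    _ ≤ ((min 1 c)⁻¹ * (|α| ^ n.1 / (n.1.factorial : ℝ) * (1 / (n.2.factorial : ℝ)))) *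
        (R ^ n.1 * R ^ n.2) := by
        apply mul_le_mul_of_nonneg_right (ka_norm_le hc n) (by positivity)
    _ = _ := by
        rw [mul_pow]
        ring

theorem summable_kbd (α c R : ℝ) (hR : 1 ≤ R) :
    Summable fun n : ℕ × ℕ => (min 1 c)⁻¹ * ((|α| * R) ^ n.1 / (n.1.factorial : ℝ) *
      (R ^ n.2 / (n.2.factorial : ℝ))) := by
  apply Summable.mul_left
  exact (Real.summable_pow_div_factorial (|α| * R)).mul_of_nonneg
    (Real.summable_pow_div_factorial R)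
    (fun j => by positivity) (fun j => by positivity)

/-- the sum -/
noncomputable def kS (α c : ℝ) (p : ℂ × ℂ) : ℂ := ∑' n, kt α c n p

theorem kt_zero_summable (α c : ℝ) : Summable fun n => kt α c n 0 := by
  apply summable_of_ne_finset_zero (s := {(0, 0)})
  intro n hn
  simp only [Finset.mem_singleton] at hn
  unfold kt
  rcases Nat.eq_zero_or_pos n.1 with h1 | h1
  · rcases Nat.eq_zero_or_pos n.2 with h2 | h2
    · exact absurd (Prod.ext h1 h2) hn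
    · simp [h2.ne']
  · simp [h1.ne']

theorem kS_hasFDerivAt {α c : ℝ} (hc : 0 < c) (p : ℂ × ℂ) :
    HasFDerivAt (kS α c) (∑' n, kt' α c n p) p := by
  have hR : (1 : ℝ) ≤ ‖p‖ + 1 := by linarith [norm_nonneg p]
  exact hasFDerivAt_tsum_of_isPreconnected (summable_kbd α c (‖p‖ + 1) hR)
    (s := Metric.ball (0 : ℂ × ℂ) (‖p‖ + 1)) Metric.isOpen_ball
    (convex_ball _ _).isPreconnected (fun n q _ => kt_hasFDerivAt α c n q)
    (fun n q hq => kt'_norm_le hc n hR (by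
      rw [Metric.mem_ball, dist_zero_right] at hq
      exact hq.le))
    (x₀ := 0) (by simp only [Metric.mem_ball, dist_self]; positivity) (kt_zero_summable α c)
    (by simp)

theorem kt'_apply {α c : ℝ} (hc : 0 < c) (n : ℕ × ℕ) (x y : ℂ) :
    kt' α c n (x, y) (x, (c : ℂ) * y) * y =
      if n = (0, 0) then 0 else
        ((α : ℂ) * x) ^ n.1 / (n.1.factorial : ℂ) * (y ^ (n.2 + 1) / ((n.2 + 1).factorial : ℂ)) := by
  obtain ⟨j, k⟩ := n
  have hp1 : (j : ℂ) * x ^ (j - 1) * x = j * x ^ j := by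
    rcases Nat.eq_zero_or_pos j with rfl | hj
    · simp
    · obtain ⟨i, rfl⟩ := Nat.exists_eq_succ_of_ne_zero hj.ne'
      simp only [Nat.succ_eq_add_one, Nat.add_sub_cancel]
      ring
  have hp2 : (k : ℂ) * y ^ (k - 1) * y = k * y ^ k := by
    rcases Nat.eq_zero_or_pos k with rfl | hj
    · simp
    · obtain ⟨i, rfl⟩ := Nat.exists_eq_succ_of_ne_zero hj.ne'
      simp only [Nat.succ_eq_add_one, Nat.add_sub_cancel]
      ring
  have h1 : kt' α c (j, k) (x, y) (x, (c : ℂ) * y) =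
      ka α c (j, k) * ((j : ℂ) + c * k) * (x ^ j * y ^ k) := by
    unfold kt'
    simp only [smul_apply, add_apply, ContinuousLinearMap.coe_fst', ContinuousLinearMap.coe_snd', smul_eq_mul]
    linear_combination ka α c (j, k) * (y ^ k * hp1 + c * x ^ j * hp2)
  rw [h1]
  split_ifs with h0
  · have hj : j = 0 := congrArg Prod.fst h0
    have hk : k = 0 := congrArg Prod.snd h0
    subst hj; subst hk
    simp
  · have hne : (j : ℂ) + c * k ≠ 0 := by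
      intro h
      have h2 := norm_jk hc (j, k)
      simp only at h2
      rw [h, norm_zero] at h2
      have hpos : 0 < j + k := by
        rcases Nat.eq_zero_or_pos (j + k) with h3 | h3
        · exact absurd (Prod.ext (by simp; omega) (by simp; omega)) h0
        · exact h3
      have hs : (0 : ℝ) < (j : ℝ) + k := by exact_mod_cast hpos
      have hδ : 0 < min 1 c := lt_min one_pos hc
      exact absurd (mul_pos hδ hs) (not_lt.mpr h2)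
    have hf1 : (j.factorial : ℂ) ≠ 0 := by exact_mod_cast (Nat.factorial_pos j).ne'
    have hf2 : ((k + 1).factorial : ℂ) ≠ 0 := by exact_mod_cast (Nat.factorial_pos (k + 1)).ne'
    unfold ka
    simp only
    rw [mul_pow]
    field_simp
    ring

theorem hasSum_gen {f g : ℕ → ℂ} {a b : ℂ} (hf : HasSum f a) (hg : HasSum g b)
    (nf : Summable fun j => ‖f j‖) (ng : Summable fun j => ‖g j‖) :
    HasSum (fun n : ℕ × ℕ => f n.1 * g n.2) (a * b) :=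
  hf.mul hg (summable_mul_of_summable_norm nf ng)

theorem hasSum_expsub (y : ℂ) :
    HasSum (fun k : ℕ => y ^ (k + 1) / ((k + 1).factorial : ℂ)) (Complex.exp y - 1) := by
  have h2 : HasSum (fun j : ℕ => y ^ j / (j.factorial : ℂ)) (Complex.exp y) := by
    rw [Complex.exp_eq_exp_ℂ]
    exact NormedSpace.expSeries_div_hasSum_exp _
  have := (hasSum_nat_add_iff' 1).mpr h2
  simpa using this

theorem summ_expsub (y : ℂ) :
    Summable fun k : ℕ => ‖y ^ (k + 1) / ((k + 1).factorial : ℂ)‖ := by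
  have h := NormedSpace.norm_expSeries_div_summable y
  exact (summable_nat_add_iff 1).mpr h

theorem hasSum_r0 (x y : ℂ) :
    HasSum (fun n : ℕ × ℕ =>
        x ^ n.1 / (n.1.factorial : ℂ) * (y ^ (n.2 + 1) / ((n.2 + 1).factorial : ℂ)))
      (Complex.exp x * (Complex.exp y - 1)) := by
  have h1 : HasSum (fun j : ℕ => x ^ j / (j.factorial : ℂ)) (Complex.exp x) := by
    rw [Complex.exp_eq_exp_ℂ]
    exact NormedSpace.expSeries_div_hasSum_exp _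
  exact hasSum_gen (f := fun j : ℕ => x ^ j / (j.factorial : ℂ))
    (g := fun k : ℕ => y ^ (k + 1) / ((k + 1).factorial : ℂ)) h1 (hasSum_expsub y)
    (NormedSpace.norm_expSeries_div_summable x) (summ_expsub y)

theorem hasSum_rhs (α : ℝ) (x y : ℂ) :
    HasSum (fun n : ℕ × ℕ => if n = (0, 0) then (0 : ℂ) else
        ((α : ℂ) * x) ^ n.1 / (n.1.factorial : ℂ) * (y ^ (n.2 + 1) / ((n.2 + 1).factorial : ℂ)))
      (Complex.exp (α * x) * (Complex.exp y - 1) - y) := by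
  have h4 := hasSum_r0 (α * x) y
  have h5 : HasSum (fun n : ℕ × ℕ => if n = (0, 0) then y else 0) y :=
    hasSum_ite_eq ((0, 0) : ℕ × ℕ) y
  have h6 := h4.sub h5
  have h7 : (fun n : ℕ × ℕ => if n = (0, 0) then (0 : ℂ) else
        ((α : ℂ) * x) ^ n.1 / (n.1.factorial : ℂ) *
          (y ^ (n.2 + 1) / ((n.2 + 1).factorial : ℂ))) =
      fun n : ℕ × ℕ => ((α : ℂ) * x) ^ n.1 / (n.1.factorial : ℂ) *
          (y ^ (n.2 + 1) / ((n.2 + 1).factorial : ℂ)) - (if n = (0, 0) then y else 0) := by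
    funext n
    split_ifs with h
    · subst h
      simp
    · simp
  rw [h7]
  exact h6

/-- **IM-K.** -/
theorem exists_K (α c : ℝ) (hc : 0 < c) : ∃ K : ℂ × ℂ → ℂ, Differentiable ℂ K ∧
    ∀ x y : ℂ, y * fderiv ℂ K (x, y) (x, (c : ℂ) * y) =
      Complex.exp (α * x) * (Complex.exp y - 1) - y := by
  refine ⟨kS α c, fun p => (kS_hasFDerivAt hc p).differentiableAt, fun x y => ?_⟩
  rw [(kS_hasFDerivAt hc (x, y)).fderiv]
  have hR : (1 : ℝ) ≤ ‖(x, y)‖ + 1 := by linarith [norm_nonneg (x, y)]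
  have hs : Summable fun n => kt' α c n (x, y) :=
    Summable.of_norm_bounded (summable_kbd α c (‖(x, y)‖ + 1) hR)
      (fun n => kt'_norm_le hc n hR (by linarith))
  have h1 : HasSum (fun n => kt' α c n (x, y) (x, (c : ℂ) * y))
      ((∑' n, kt' α c n (x, y)) (x, (c : ℂ) * y)) :=
    hs.hasSum.mapL (ContinuousLinearMap.apply ℂ ℂ ((x, (c : ℂ) * y) : ℂ × ℂ))
  have h2 := h1.mul_right y
  have h3 : (fun n => kt' α c n (x, y) (x, (c : ℂ) * y) * y) = fun n : ℕ × ℕ =>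
      if n = (0, 0) then (0 : ℂ) else
        ((α : ℂ) * x) ^ n.1 / (n.1.factorial : ℂ) *
          (y ^ (n.2 + 1) / ((n.2 + 1).factorial : ℂ)) := by
    funext n
    exact kt'_apply hc n x y
  rw [h3] at h2
  rw [mul_comm]
  exact h2.unique (hasSum_rhs α x y)

end Pool.Agent.Helper33.IM
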