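import Mathlib

/-!
# Block IM-M (helper72, MP_1994dd_an)

`M₁(x) = ∑ x^j / (j! (j - c))` is entire, `x M₁' - c M₁ = exp x`, real on the real axis and has a
zero `α > 0` there; `M(x) = M₁(α x)`.
-/

namespace Pool.Agent.Helper33.IM

open Filter Topology

/-- the general term -/
noncomputable def mt (c : ℝ) (j : ℕ) (x : ℂ) : ℂ := x ^ j / ((j.factorial : ℂ) * ((j : ℂ) - (c : ℂ)))

/-- the sum -/
noncomputable def mS (c : ℝ) (x : ℂ) : ℂ := ∑' j, mt c j x

theorem norm_sub_ge {c : ℝ} (hc : 0 < c) (_hc1 : c < 1) (j : ℕ) :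
    min c (1 - c) ≤ ‖(j : ℂ) - (c : ℂ)‖ := by
  have h1 : (j : ℂ) - (c : ℂ) = (((j : ℝ) - c : ℝ) : ℂ) := by push_cast; ring
  rw [h1, Complex.norm_real, Real.norm_eq_abs]
  rcases Nat.eq_zero_or_pos j with rfl | hj
  · simp only [Nat.cast_zero, zero_sub, abs_neg]
    rw [abs_of_pos hc]
    exact min_le_left _ _
  · have h2 : (1 : ℝ) ≤ j := by exact_mod_cast hj
    refine (min_le_right _ _).trans ?_
    exact (by linarith : 1 - c ≤ (j : ℝ) - c).trans (le_abs_self _)

theorem mt_norm_le {c : ℝ} (hc : 0 < c) (hc1 : c < 1) (j : ℕ) {x : ℂ} {R : ℝ} (hx : ‖x‖ ≤ R) :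
    ‖mt c j x‖ ≤ (min c (1 - c))⁻¹ * (R ^ j / (j.factorial : ℝ)) := by
  have hδ : 0 < min c (1 - c) := lt_min hc (by linarith)
  have hf : (0 : ℝ) < (j.factorial : ℝ) := by exact_mod_cast Nat.factorial_pos j
  have hR : 0 ≤ R := (norm_nonneg _).trans hx
  unfold mt
  rw [norm_div, norm_mul, norm_pow, Complex.norm_natCast]
  have h1 := norm_sub_ge hc hc1 j
  have h2 : ‖x‖ ^ j ≤ R ^ j := pow_le_pow_left₀ (norm_nonneg _) hx j
  have h3 : (min c (1 - c))⁻¹ * (R ^ j / (j.factorial : ℝ)) =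
      R ^ j / ((j.factorial : ℝ) * min c (1 - c)) := by
    field_simp
  rw [h3]
  apply div_le_div₀ (by positivity) h2 (by positivity)
  exact mul_le_mul_of_nonneg_left h1 hf.le

theorem summable_bd (c R : ℝ) :
    Summable fun j : ℕ => (min c (1 - c))⁻¹ * (R ^ j / (j.factorial : ℝ)) :=
  (Real.summable_pow_div_factorial R).mul_left _

theorem mt_diff (c : ℝ) (j : ℕ) : Differentiable ℂ (mt c j) := by
  unfold mt
  fun_prop

theorem mt_deriv {c : ℝ} (hc : 0 < c) (hc1 : c < 1) (j : ℕ) (x : ℂ) :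
    x * deriv (mt c j) x - c * mt c j x = x ^ j / (j.factorial : ℂ) := by
  have h1 : HasDerivAt (mt c j)
      ((j : ℂ) * x ^ (j - 1) / ((j.factorial : ℂ) * ((j : ℂ) - (c : ℂ)))) x :=
    (hasDerivAt_pow j x).div_const _
  rw [h1.deriv]
  unfold mt
  have hne : (j : ℂ) - (c : ℂ) ≠ 0 := by
    intro h
    have := norm_sub_ge hc hc1 j
    rw [h, norm_zero] at this
    exact absurd (lt_min hc (by linarith : (0 : ℝ) < 1 - c)) (not_lt.mpr this)
  have hf : (j.factorial : ℂ) ≠ 0 := by exact_mod_cast (Nat.factorial_pos j).ne'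
  have hp : x * ((j : ℂ) * x ^ (j - 1)) = j * x ^ j := by
    rcases Nat.eq_zero_or_pos j with rfl | hj
    · simp
    · obtain ⟨i, rfl⟩ := Nat.exists_eq_succ_of_ne_zero hj.ne'
      simp only [Nat.succ_eq_add_one, Nat.add_sub_cancel]
      ring
  rw [← mul_div_assoc, hp]
  field_simp

theorem mS_differentiable {c : ℝ} (hc : 0 < c) (hc1 : c < 1) : Differentiable ℂ (mS c) := by
  intro x
  have h := Complex.differentiableOn_tsum_of_summable_norm (U := Metric.ball (0 : ℂ) (‖x‖ + 1))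
    (F := mt c) (summable_bd c (‖x‖ + 1)) (fun j => (mt_diff c j).differentiableOn)
    Metric.isOpen_ball (fun j w hw => mt_norm_le hc hc1 j (by
      rw [Metric.mem_ball, dist_zero_right] at hw
      exact hw.le))
  exact (h x (by simp)).differentiableAt (Metric.isOpen_ball.mem_nhds (by simp))

theorem mS_eq {c : ℝ} (hc : 0 < c) (hc1 : c < 1) (x : ℂ) :
    x * deriv (mS c) x - c * mS c x = Complex.exp x := by
  have h := Complex.hasSum_deriv_of_summable_norm (U := Metric.ball (0 : ℂ) (‖x‖ + 1))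
    (F := mt c) (summable_bd c (‖x‖ + 1)) (fun j => (mt_diff c j).differentiableOn)
    Metric.isOpen_ball (fun j w hw => mt_norm_le hc hc1 j (by
      rw [Metric.mem_ball, dist_zero_right] at hw
      exact hw.le)) (z := x) (by simp)
  have hs : HasSum (fun j => mt c j x) (mS c x) := by
    apply Summable.hasSum
    exact Summable.of_norm_bounded (summable_bd c ‖x‖) (fun j => mt_norm_le hc hc1 j le_rfl)
  have h2 := (h.mul_left x).sub (hs.mul_left (c : ℂ))
  have h3 : HasSum (fun j : ℕ => x ^ j / (j.factorial : ℂ)) (Complex.exp x) := by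
    rw [Complex.exp_eq_exp_ℂ]
    exact NormedSpace.expSeries_div_hasSum_exp x
  have h4 : HasSum (fun j : ℕ => x ^ j / (j.factorial : ℂ))
      (x * deriv (mS c) x - c * mS c x) := by
    have h5 : (fun j : ℕ => x ^ j / (j.factorial : ℂ)) =
        fun j => x * deriv (mt c j) x - c * mt c j x := by
      funext j
      exact (mt_deriv hc hc1 j x).symm
    rw [h5]
    exact h2
  exact h4.unique h3

/-- the real value -/
theorem mt_re (c : ℝ) (j : ℕ) (t : ℝ) :
    mt c j (t : ℂ) = ((t ^ j / ((j.factorial : ℝ) * ((j : ℝ) - c)) : ℝ) : ℂ) := by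
  unfold mt
  push_cast
  rfl

theorem mS_real {c : ℝ} (t : ℝ) :
    mS c (t : ℂ) = ((∑' j : ℕ, t ^ j / ((j.factorial : ℝ) * ((j : ℝ) - c)) : ℝ) : ℂ) := by
  unfold mS
  rw [Complex.ofReal_tsum]
  exact tsum_congr fun j => mt_re c j t

theorem mS_lower {c : ℝ} (hc : 0 < c) (hc1 : c < 1) {t : ℝ} (ht : 0 ≤ t) :
    -1 / c + t / (1 - c) ≤ ∑' j : ℕ, t ^ j / ((j.factorial : ℝ) * ((j : ℝ) - c)) := by
  have hs : Summable fun j : ℕ => t ^ j / ((j.factorial : ℝ) * ((j : ℝ) - c)) := by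
    apply Summable.of_norm_bounded (summable_bd c t)
    intro j
    have h := mt_norm_le hc hc1 j (x := (t : ℂ)) (R := t) (by
      rw [Complex.norm_real, Real.norm_eq_abs, abs_of_nonneg ht])
    rw [mt_re, Complex.norm_real] at h
    exact h
  have h := hs.sum_le_tsum (Finset.range 2) (fun j hj => by
    have h2 : 2 ≤ j := by
      simp only [Finset.mem_range, not_lt] at hj
      exact hj
    have h3 : (2 : ℝ) ≤ j := by exact_mod_cast h2
    have h4 : 0 ≤ (j : ℝ) - c := by linarith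
    positivity)
  refine le_trans (le_of_eq ?_) h
  rw [Finset.sum_range_succ, Finset.sum_range_one]
  simp only [pow_zero, Nat.factorial_zero, Nat.cast_one, Nat.cast_zero, zero_sub, one_mul,
    pow_one, Nat.factorial_one]
  rw [div_neg, neg_div]

theorem mS_zero (c : ℝ) :
    ∑' j : ℕ, (0 : ℝ) ^ j / ((j.factorial : ℝ) * ((j : ℝ) - c)) = -1 / c := by
  rw [tsum_eq_single 0]
  · simp [neg_div, div_neg]
  · intro j hj
    simp [hj]

theorem exists_zero {c : ℝ} (hc : 0 < c) (hc1 : c < 1) : ∃ α : ℝ, mS c (α : ℂ) = 0 := by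
  have hcont : Continuous fun t : ℝ => (mS c (t : ℂ)).re :=
    Complex.continuous_re.comp ((mS_differentiable hc hc1).continuous.comp
      Complex.continuous_ofReal)
  have h0 : (mS c ((0 : ℝ) : ℂ)).re ≤ 0 := by
    rw [mS_real, Complex.ofReal_re, mS_zero]
    rw [neg_div]
    have := one_div_pos.mpr hc
    linarith
  have h1 : 0 ≤ (mS c (((1 - c) / c : ℝ) : ℂ)).re := by
    rw [mS_real, Complex.ofReal_re]
    refine le_trans (le_of_eq ?_) (mS_lower hc hc1 (by
      have : 0 < 1 - c := by linarith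
      positivity))
    have : 1 - c ≠ 0 := by linarith
    field_simp
    ring
  have hab : (0 : ℝ) ≤ (1 - c) / c := by
    have : 0 < 1 - c := by linarith
    positivity
  obtain ⟨α, -, hα⟩ := intermediate_value_Icc hab hcont.continuousOn ⟨h0, h1⟩
  refine ⟨α, ?_⟩
  simp only [mS_real, Complex.ofReal_re] at hα
  rw [mS_real, hα, Complex.ofReal_zero]

/-- **IM-M.** -/
theorem exists_M (c : ℝ) (hc : 0 < c) (hc1 : c < 1) : ∃ α : ℝ, ∃ M : ℂ → ℂ, Differentiable ℂ M ∧
    M 1 = 0 ∧ ∀ x : ℂ, x * deriv M x - c * M x = Complex.exp (α * x) := by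
  obtain ⟨α, hα⟩ := exists_zero hc hc1
  refine ⟨α, fun x => mS c (α * x), ?_, ?_, ?_⟩
  · exact (mS_differentiable hc hc1).comp (differentiable_id.const_mul (α : ℂ))
  · simpa using hα
  · intro x
    have h1 : deriv (fun x : ℂ => mS c (α * x)) x = α * deriv (mS c) (α * x) := by
      have h2 : HasDerivAt (fun x : ℂ => (α : ℂ) * x) (α : ℂ) x := by
        simpa using (hasDerivAt_id x).const_mul (α : ℂ)
      have h3 := ((mS_differentiable hc hc1) ((α : ℂ) * x)).hasDerivAt.comp x h2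
      rw [show (fun x : ℂ => mS c (α * x)) = mS c ∘ (fun x : ℂ => (α : ℂ) * x) from rfl, h3.deriv]
      ring
    rw [h1, ← mS_eq hc hc1 (α * x)]
    ring

end Pool.Agent.Helper33.IM
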